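import Pool.Agent.Helper31.TW.St3

/-!
# Project TW, module CRP: representation of cut sets in a residue class
-/

set_option autoImplicit false

namespace Pool.Agent.Helper40.TW

open Pool.Agent.Helper31.TW

theorem frm_aff {n : ℕ} (α : Fin n → ℤ) (a t : Fin n → ℕ) (D : ℕ) :
    frm α (a + D • t) = frm α a + (D : ℤ) * frm α t := by
  unfold frm
  rw [Finset.mul_sum, ← Finset.sum_add_distrib]
  refine Finset.sum_congr rfl fun i _ => ?_
  simp only [Pi.add_apply, Pi.smul_apply, smul_eq_mul]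
  push_cast
  ring

/-- the smallest number `≥ K` congruent to `r` modulo `D` -/
def low (D K r : ℕ) : ℕ := K + (r + (D - K % D)) % D

theorem low_ge (D K r : ℕ) : K ≤ low D K r := Nat.le_add_right _ _

theorem low_mod {D : ℕ} (hD : 1 ≤ D) (K r : ℕ) : low D K r % D = r % D := by
  unfold low
  rw [Nat.add_mod_mod]
  have h1 : K % D ≤ D := (Nat.mod_lt _ hD).le
  have h2 := Nat.div_add_mod K D
  have h3 : K + (r + (D - K % D)) = r + D * (K / D + 1) := by
    have : D * (K / D + 1) = D * (K / D) + D := by ring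
    omega
  rw [h3, Nat.add_mul_mod_self_left]

theorem low_le {D : ℕ} (hD : 1 ≤ D) {K r x : ℕ} (hK : K ≤ x) (hx : x % D = r % D) :
    ∃ t : ℕ, x = low D K r + D * t := by
  have h1 := low_mod hD K r
  have h2 : (r + (D - K % D)) % D < D := Nat.mod_lt _ hD
  have h3 : low D K r < K + D := by
    unfold low
    omega
  have h4 : x ≡ low D K r [MOD D] := by
    unfold Nat.ModEq
    rw [hx, h1]
  have h5 : low D K r ≤ x := by
    by_contra hc
    push Not at hc
    have h6 : D ∣ low D K r - x := (Nat.modEq_iff_dvd' hc.le).1 h4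
    have h7 := Nat.le_of_dvd (by omega) h6
    omega
  obtain ⟨t, ht⟩ := (Nat.modEq_iff_dvd' h5).1 h4.symm
  exact ⟨t, by omega⟩

theorem hCRP : StCRP := by
  intro n I a ρ D K2 A hD hA
  classical
  obtain ⟨a', ha'⟩ : ∃ a' : Fin n → ℕ, a' = fun i => if i ∈ I then low D K2 (ρ i) else a i :=
    ⟨_, rfl⟩
  have ha1 : ∀ i ∈ I, a' i = low D K2 (ρ i) := fun i hi => by rw [ha']; exact if_pos hi
  have ha2 : ∀ i, i ∉ I → a' i = a i := fun i hi => by rw [ha']; exact if_neg hi
  have hD' : (0 : ℤ) < (D : ℤ) := by exact_mod_cast hD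
  have key : ∀ (p : (Fin n → ℤ) × ℤ) (t : Fin n → ℕ),
      -((frm p.1 a' - p.2) / (D : ℤ)) ≤ frm p.1 t ↔ p.2 ≤ frm p.1 (a' + D • t) := by
    intro p t
    rw [frm_aff, neg_le, Int.le_ediv_iff_mul_le hD']
    constructor
    · intro h
      linarith [mul_comm (frm p.1 t) (D : ℤ), neg_mul (frm p.1 t) (D : ℤ)]
    · intro h
      linarith [mul_comm (frm p.1 t) (D : ℤ), neg_mul (frm p.1 t) (D : ℤ)]
  refine ⟨I, a', D, A.image fun p => (p.1, -((frm p.1 a' - p.2) / (D : ℤ))), hD, ?_, ?_⟩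
  · intro p hp q hq hpq t ht
    obtain ⟨p', hp', rfl⟩ := Finset.mem_image.1 hp
    obtain ⟨q', hq', rfl⟩ := Finset.mem_image.1 hq
    refine hA p' hp' q' hq' ?_ t ht
    rintro rfl
    exact hpq rfl
  · ext x
    constructor
    · rintro ⟨h1, h2, h3⟩
      have hex : ∀ i, ∃ t : ℕ, x i = a' i + D * t ∧ (i ∉ I → t = 0) := by
        intro i
        by_cases hi : i ∈ I
        · obtain ⟨t, ht⟩ := low_le hD (h2 i hi).1 (h2 i hi).2
          exact ⟨t, by rw [ha1 i hi, ← ht], fun h => absurd hi h⟩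
        · exact ⟨0, by rw [h1 i hi, ha2 i hi, mul_zero, add_zero], fun _ => rfl⟩
      choose t ht ht0 using hex
      have hx : x = a' + D • t := by
        funext i
        rw [ht i]
        rfl
      refine ⟨t, ht0, ?_, hx⟩
      intro p hp
      obtain ⟨p', hp', rfl⟩ := Finset.mem_image.1 hp
      change -((frm p'.1 a' - p'.2) / (D : ℤ)) ≤ frm p'.1 t
      rw [key, ← hx]
      exact h3 p' hp'
    · rintro ⟨t, ht0, h, rfl⟩
      have hv : ∀ i, (a' + D • t) i = a' i + D * t i := fun i => rfl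
      refine ⟨fun i hi => ?_, fun i hi => ⟨?_, ?_⟩, fun p hp => ?_⟩
      · rw [hv, ht0 i hi, ha2 i hi, mul_zero, add_zero]
      · rw [hv, ha1 i hi]
        exact (low_ge D K2 (ρ i)).trans (Nat.le_add_right _ _)
      · rw [hv, ha1 i hi, Nat.add_mul_mod_self_left, low_mod hD]
      · rw [← key]
        exact h _ (Finset.mem_image_of_mem _ hp)

end Pool.Agent.Helper40.TW
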